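import Mathlib
import Pool.Agent.H24R2.JP.JS

set_option autoImplicit false

/-!
# Zero-free half-planes and the Farey fractions in shrinking windows

Let `f_1 < ... < f_A` be the Farey fractions of order `n` in `(0, 1]` and `Θ` the supremum of the real
parts of the zeros of zeta.  For every rational `a / b ∈ [0, 1)`, `0 ≤ c < 1` and `κ, p > 0` the sum of
`|f_i - i / A| ^ p` over the `f_i` in the window `(a / b, a / b + κ n ^ (-c))` is
`n ^ (1 - p + (1 - c) max (0, 1 - (1 - Θ) p) + o(1))`.  Hence zeta has no zeros with real part greater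
than `θ₀` as soon as, for one such window and all `θ > θ₀`, the sum with `p = 1` is at most
`n ^ ((1 - c) θ)` for arbitrarily large `n`.
-/

namespace Pool.Agent.Results.MP_5a4862_nt.FareyWindows

open Filter Topology

/-- the Farey fractions of order `n`: all rationals `p / q` in `(0, 1]` with `1 ≤ p, q ≤ n` -/
def farey (n : ℕ) : Finset ℚ :=
  ((Finset.Icc 1 n ×ˢ Finset.Icc 1 n).image (fun p : ℕ × ℕ => (p.1 : ℚ) / (p.2 : ℚ))).filter
    (fun q : ℚ => q ≤ 1)

/-- the `(j + 1)`-st term `f_{j+1}` of the Farey fractions in increasing order, as a real number -/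
noncomputable def term (n : ℕ) (j : Fin (farey n).card) : ℝ :=
  (((farey n).orderEmbOfFin rfl j : ℚ) : ℝ)

/-- the sum of `|f_i - i / A(n)| ^ p` over the indices `i = j + 1` with `x < f_i < y` -/
noncomputable def windowPow (p : ℝ) (n : ℕ) (x y : ℝ) : ℝ :=
  ∑ j : Fin (farey n).card,
    if x < term n j ∧ term n j < y then |term n j - ((j : ℕ) + 1 : ℝ) / ((farey n).card : ℝ)| ^ p else 0

/-- the supremum of the real parts of the zeros of zeta in the critical strip -/
noncomputable def zetaSup : ℝ :=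
  sSup (Complex.re '' {s : ℂ | riemannZeta s = 0 ∧ 0 < s.re ∧ s.re < 1})

/-- zeta has no zeros with real part greater than `θ₀` -/
def ZeroFree (θ₀ : ℝ) : Prop := ∀ s : ℂ, θ₀ < s.re → riemannZeta s ≠ 0

/-- Let `0 ≤ a < b` be coprime integers, `0 ≤ c < 1` and `κ > 0`.
(1) For every `p > 0` the logarithm of the sum of `|f_i - i / A(n)| ^ p` over the Farey fractions `f_i`
of order `n` in the window `(a / b, a / b + κ n ^ (-c))`, divided by `log n`, tends to
`1 - p + (1 - c) max (0, 1 - (1 - Θ) p)`.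
(2) For `1/2 ≤ θ₀ < 1`, zeta has no zeros with real part greater than `θ₀` if and only if for all
`θ > θ₀` there are arbitrarily large integers `n` for which the sum of `|f_i - i / A(n)|` over the
window is at most `n ^ ((1 - c) θ)`. -/
theorem result (a b : ℕ) (hab : a < b) (hco : Nat.Coprime a b) (c κ : ℝ) (hc : 0 ≤ c)
    (hc1 : c < 1) (hκ : 0 < κ) :
    (∀ p : ℝ, 0 < p → Tendsto
      (fun n : ℕ => Real.log (windowPow p n ((a : ℝ) / b) ((a : ℝ) / b + κ * (n : ℝ) ^ (-c))) /
        Real.log n)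
      atTop (𝓝 (1 - p + (1 - c) * max 0 (1 - (1 - zetaSup) * p)))) ∧
    (∀ θ₀ : ℝ, 1 / 2 ≤ θ₀ → θ₀ < 1 → (ZeroFree θ₀ ↔
      ∀ θ : ℝ, θ₀ < θ → ∃ᶠ n : ℕ in atTop,
        windowPow 1 n ((a : ℝ) / b) ((a : ℝ) / b + κ * (n : ℝ) ^ (-c)) ≤
          (n : ℝ) ^ ((1 - c) * θ))) := by
  have h1 : ∀ p : ℝ, 0 < p → Tendsto
      (fun n : ℕ => Real.log (windowPow p n ((a : ℝ) / b) ((a : ℝ) / b + κ * (n : ℝ) ^ (-c))) /
        Real.log n)
      atTop (𝓝 (1 - p + (1 - c) * max 0 (1 - (1 - zetaSup) * p))) := fun p hp =>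
    Pool.Agent.H24R2.JP.JS.result p hp a b hab hco c κ hc hc1 hκ
  refine ⟨h1, ?_⟩
  intro θ₀ h0 h01
  have hΘ0 : 0 < zetaSup := by
    obtain ⟨x, s, hs, rfl⟩ := Pool.Agent.H295R2.zset_nonempty
    exact lt_of_lt_of_le hs.2.1 (le_csSup Pool.Agent.H295R2.zset_bdd ⟨s, hs, rfl⟩)
  have hlim := h1 1 one_pos
  have he : (1 : ℝ) - 1 + (1 - c) * max 0 (1 - (1 - zetaSup) * 1) = (1 - c) * zetaSup := by
    rw [mul_one, sub_sub_cancel, max_eq_right hΘ0.le, sub_self, zero_add]
  rw [he] at hlim
  have hc' : 0 < 1 - c := by linarith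
  constructor
  · intro hz θ hθ
    have hΘ : zetaSup ≤ θ₀ := by
      refine csSup_le Pool.Agent.H295R2.zset_nonempty ?_
      rintro x ⟨s, hs, rfl⟩
      by_contra hcon
      exact hz s (not_le.1 hcon) hs.1
    have hev := hlim.eventually (gt_mem_nhds (show (1 - c) * zetaSup < (1 - c) * θ by
      exact mul_lt_mul_of_pos_left (lt_of_le_of_lt hΘ hθ) hc'))
    refine Eventually.frequently ?_
    filter_upwards [hev, eventually_ge_atTop 2] with n hn hn2
    have hnR : (2 : ℝ) ≤ n := by exact_mod_cast hn2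
    have hlog : 0 < Real.log n := Real.log_pos (by linarith)
    rcases le_or_gt (windowPow 1 n ((a : ℝ) / b) ((a : ℝ) / b + κ * (n : ℝ) ^ (-c))) 0 with hneg | hpos
    · exact hneg.trans (by positivity)
    rw [div_lt_iff₀ hlog] at hn
    rw [← Real.log_le_log_iff hpos (by positivity), Real.log_rpow (by linarith)]
    exact hn.le
  · intro h s hs hzero
    rcases lt_or_ge s.re 1 with hs1 | hs1
    · have hmem : s.re ≤ zetaSup :=
        le_csSup Pool.Agent.H295R2.zset_bdd ⟨s, ⟨hzero, by linarith, hs1⟩, rfl⟩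
      have hlt : θ₀ < zetaSup := lt_of_lt_of_le hs hmem
      have hev := hlim.eventually (lt_mem_nhds
        (show (1 - c) * ((θ₀ + zetaSup) / 2) < (1 - c) * zetaSup by
          exact mul_lt_mul_of_pos_left (by linarith) hc'))
      obtain ⟨n, hn, hn1, hn2⟩ := ((h ((θ₀ + zetaSup) / 2) (by linarith)).and_eventually
        (hev.and (eventually_ge_atTop 2))).exists
      have hnR : (2 : ℝ) ≤ n := by exact_mod_cast hn2
      have hlog : 0 < Real.log n := Real.log_pos (by linarith)
      rw [lt_div_iff₀ hlog] at hn1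
      have hpos0 : 0 < (1 - c) * ((θ₀ + zetaSup) / 2) * Real.log n := by
        apply mul_pos (mul_pos hc' (by linarith)) hlog
      have hW : 0 < windowPow 1 n ((a : ℝ) / b) ((a : ℝ) / b + κ * (n : ℝ) ^ (-c)) := by
        by_contra hcon
        have h0' : 0 ≤ windowPow 1 n ((a : ℝ) / b) ((a : ℝ) / b + κ * (n : ℝ) ^ (-c)) := by
          unfold windowPow
          apply Finset.sum_nonneg
          intro j _
          split_ifs
          · positivity
          · exact le_rfl
        rw [le_antisymm (not_lt.1 hcon) h0', Real.log_zero] at hn1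
        linarith
      have h5 := Real.log_le_log hW hn
      rw [Real.log_rpow (by linarith)] at h5
      linarith
    · exact riemannZeta_ne_zero_of_one_le_re hs1 hzero

end Pool.Agent.Results.MP_5a4862_nt.FareyWindows
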