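import Mathlib
import Pool.Agent.H295R2.T8

set_option autoImplicit false

/-!
# Zero-free half-planes and the Mertens function at the points `x / h`

Let `M(x) = ∑_{n ≤ x} μ(n)` and let `Θ` be the supremum of the real parts of the zeros of zeta.  For
every `δ ∈ (0, 1]` the largest of the numbers `|M(x / h)|`, `h ≤ x^δ`, is `x ^ (Θ + o(1))` for EVERY
large `x`.  Hence zeta has no zeros with real part greater than `θ₀` as soon as, for one `δ > 0` and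
all `θ > θ₀`, there are arbitrarily large integers `n` with `|M(n / h)| ≤ n ^ θ` for all `h ≤ n^δ`.
-/

namespace Pool.Agent.Results.MP_5a4862_nt.MertensAtQuotients

open Filter Topology

/-- the Mertens function `M(y) = ∑_{n ≤ y} μ(n)` -/
noncomputable def mertens (y : ℝ) : ℝ :=
  ∑ k ∈ Finset.Icc 1 ⌊y⌋₊, ((ArithmeticFunction.moebius k : ℤ) : ℝ)

/-- the supremum of the real parts of the zeros of zeta in the critical strip -/
noncomputable def zetaSup : ℝ :=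
  sSup (Complex.re '' {s : ℂ | riemannZeta s = 0 ∧ 0 < s.re ∧ s.re < 1})

/-- the largest of the numbers `|M(x / h)|`, `h` an integer with `1 ≤ h ≤ x ^ δ` -/
noncomputable def maxM (δ x : ℝ) : ℝ :=
  sSup {y : ℝ | ∃ h : ℕ, 1 ≤ h ∧ (h : ℝ) ≤ x ^ δ ∧ y = |mertens (x / h)|}

/-- zeta has no zeros with real part greater than `θ₀` -/
def ZeroFree (θ₀ : ℝ) : Prop := ∀ s : ℂ, θ₀ < s.re → riemannZeta s ≠ 0

/-- (1) For `0 < δ ≤ 1` and `ε > 0`, for every large integer `n` there is an integer `1 ≤ h ≤ n ^ δ` with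
`|M(n / h)| ≥ n ^ (Θ - ε)`.
(2) For `0 < δ ≤ 1`, `log max_{h ≤ x^δ} |M(x / h)| / log x → Θ` as `x → ∞`.
(3) For `1/2 ≤ θ₀ < 1` and every fixed `0 < δ ≤ 1`, zeta has no zeros with real part greater than `θ₀`
if and only if for all `θ > θ₀` there are arbitrarily large integers `n` such that
`|M(n / h)| ≤ n ^ θ` for all integers `1 ≤ h ≤ n ^ δ`. -/
theorem result :
    (∀ δ ε : ℝ, 0 < δ → δ ≤ 1 → 0 < ε → ∀ᶠ n : ℕ in atTop, ∃ h : ℕ, 1 ≤ h ∧ (h : ℝ) ≤ (n : ℝ) ^ δ ∧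
      (n : ℝ) ^ (zetaSup - ε) ≤ |mertens ((n : ℝ) / h)|) ∧
    (∀ δ : ℝ, 0 < δ → δ ≤ 1 →
      Tendsto (fun x : ℝ => Real.log (maxM δ x) / Real.log x) atTop (𝓝 zetaSup)) ∧
    (∀ θ₀ δ : ℝ, 1 / 2 ≤ θ₀ → θ₀ < 1 → 0 < δ → δ ≤ 1 → (ZeroFree θ₀ ↔
      ∀ θ : ℝ, θ₀ < θ → ∃ᶠ n : ℕ in atTop, ∀ h : ℕ, 1 ≤ h → (h : ℝ) ≤ (n : ℝ) ^ δ →
        |mertens ((n : ℝ) / h)| ≤ (n : ℝ) ^ θ)) := by
  have h1 : ∀ δ ε : ℝ, 0 < δ → δ ≤ 1 → 0 < ε → ∀ᶠ n : ℕ in atTop, ∃ h : ℕ, 1 ≤ h ∧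
      (h : ℝ) ≤ (n : ℝ) ^ δ ∧ (n : ℝ) ^ (zetaSup - ε) ≤ |mertens ((n : ℝ) / h)| :=
    fun δ ε h1 h2 h3 => Pool.Agent.H295R2.mertens_local_lower h1 h2 h3
  refine ⟨h1, fun δ h1 h2 => Pool.Agent.H295R2.mertens_limit h1 h2, ?_⟩
  intro θ₀ δ h0 h01 hδ hδ1
  constructor
  · intro hz θ hθ
    have hΘ : zetaSup ≤ θ₀ := by
      refine csSup_le Pool.Agent.H295R2.zset_nonempty ?_
      rintro x ⟨s, hs, rfl⟩
      by_contra hc
      exact hz s (not_le.1 hc) hs.1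
    have hlim : Tendsto (fun n : ℕ => Real.log (maxM δ n) / Real.log n) atTop (𝓝 zetaSup) :=
      (Pool.Agent.H295R2.mertens_limit hδ hδ1).comp tendsto_natCast_atTop_atTop
    have hev := hlim.eventually (gt_mem_nhds (lt_of_le_of_lt hΘ hθ))
    refine Eventually.frequently ?_
    filter_upwards [hev, eventually_ge_atTop 2] with n hn hn2 h hh1 hh2
    have hnR : (2 : ℝ) ≤ n := by exact_mod_cast hn2
    have hlog : 0 < Real.log n := Real.log_pos (by linarith)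
    have hbdd : BddAbove {y : ℝ | ∃ h : ℕ, 1 ≤ h ∧ (h : ℝ) ≤ (n : ℝ) ^ δ ∧
        y = |mertens ((n : ℝ) / h)|} := by
      refine ⟨n, ?_⟩
      rintro y ⟨h, hh1, _, rfl⟩
      have hh : (1 : ℝ) ≤ h := by exact_mod_cast hh1
      refine (Pool.Agent.H295R2.abs_Mx_le (y := (n : ℝ) / h) (by positivity)).trans ?_
      exact div_le_self (by linarith) hh
    have hle : |mertens ((n : ℝ) / h)| ≤ maxM δ n := le_csSup hbdd ⟨h, hh1, hh2, rfl⟩
    refine hle.trans ?_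
    have hone : 1 ≤ (n : ℝ) ^ θ := Real.one_le_rpow (by linarith) (by linarith)
    rcases le_or_gt (maxM δ n) 0 with hneg | hpos
    · linarith
    rw [div_lt_iff₀ hlog] at hn
    rw [← Real.log_le_log_iff hpos (by positivity), Real.log_rpow (by linarith)]
    exact hn.le
  · intro h s hs hzero
    rcases lt_or_ge s.re 1 with hs1 | hs1
    · have hmem : s.re ≤ zetaSup := by
        refine le_csSup Pool.Agent.H295R2.zset_bdd ⟨s, ⟨hzero, by linarith, hs1⟩, rfl⟩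
      have hlt : θ₀ < zetaSup := lt_of_lt_of_le hs hmem
      obtain ⟨n, hn, hn1, hn2⟩ := ((h ((θ₀ + zetaSup) / 2) (by linarith)).and_eventually
        ((h1 δ ((zetaSup - θ₀) / 4) hδ hδ1 (by linarith)).and (eventually_ge_atTop 2))).exists
      obtain ⟨k, hk1, hk2, hk3⟩ := hn1
      have h5 := hk3.trans (hn k hk1 hk2)
      have hnR : (1 : ℝ) < n := by exact_mod_cast (by omega : 1 < n)
      have h6 := (Real.rpow_le_rpow_left_iff hnR).1 h5
      linarith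
    · exact riemannZeta_ne_zero_of_one_le_re hs1 hzero

end Pool.Agent.Results.MP_5a4862_nt.MertensAtQuotients
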