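import Pool.Agent.H353R3.S8

set_option autoImplicit false

/-!
# Smooth cutoffs with square-root error, and zero-free half-planes of zeta

A smooth cutoff `W` of ratio `A > 1` vanishes on `(-∞, 1]` and equals `1` on `[A, ∞)`.  We compare
`∑_{p ≤ x} (log p) W(x / p)` with `∑_{n ≤ x} W(x / n)`, and consider `∑_{n ≤ x} μ(n) W(x / n)`.

* For every exponent `θ > 1/2` and every ratio `A > 1` there is a smooth cutoff (of variable sign) for which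
  both are `O(x ^ θ)`; this is unconditional.
* With monotone cutoffs the same holds for some ratio `A(θ)`, with `A(θ) → 1` as `θ → 1`, unconditionally.
* A monotone cutoff of ratio `A` with error `O(x ^ θ)` excludes all zeros `ρ` of zeta with
  `Re ρ > θ` and `|Im ρ| log A ≤ π`.
* Hence monotone cutoffs of all ratios `A > 1` with error `O(x ^ θ)` exist for all `θ > θ₀` if and only if
  zeta has no zeros with `Re s > θ₀`.
-/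

namespace Pool.Agent.Results.MP_5a4862_nt.SmoothCutoffs

open Filter Topology
open scoped ContDiff

/-- `W` is a smooth cutoff of ratio `A`: infinitely differentiable, `0` on `(-∞, 1]` and `1` on `[A, ∞)`. -/
def Cutoff (A : ℝ) (W : ℝ → ℝ) : Prop :=
  ContDiff ℝ ∞ W ∧ (∀ y ≤ 1, W y = 0) ∧ ∀ y, A ≤ y → W y = 1

/-- `∑_{p ≤ x} (log p) W(x / p) - ∑_{n ≤ x} W(x / n) = O(x ^ θ)` for `x ≥ 1`. -/
def PrimeBound (θ : ℝ) (W : ℝ → ℝ) : Prop :=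
  ∃ C : ℝ, ∀ x : ℝ, 1 ≤ x → |∑ p ∈ (Finset.Icc 1 ⌊x⌋₊).filter Nat.Prime, Real.log p * W (x / p) -
    ∑ n ∈ Finset.Icc 1 ⌊x⌋₊, W (x / n)| ≤ C * x ^ θ

/-- `∑_{n ≤ x} μ(n) W(x / n) = O(x ^ θ)` for `x ≥ 1`. -/
def MoebiusBound (θ : ℝ) (W : ℝ → ℝ) : Prop :=
  ∃ C : ℝ, ∀ x : ℝ, 1 ≤ x →
    |∑ n ∈ Finset.Icc 1 ⌊x⌋₊, (ArithmeticFunction.moebius n : ℝ) * W (x / n)| ≤ C * x ^ θ

/-- zeta has no zeros with real part greater than `θ₀` -/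
def ZeroFree (θ₀ : ℝ) : Prop := ∀ s : ℂ, θ₀ < s.re → riemannZeta s ≠ 0

theorem bd_pr {A θ : ℝ} {W : ℝ → ℝ} (h1 : 1 / 2 < θ) (hA : 1 < A) (hW : Cutoff A W) :
    PrimeBound θ W ↔ H353.bdW H353.aL θ W := H353.bdP_iff θ h1 hA hW

theorem bd_mu {θ : ℝ} {W : ℝ → ℝ} : MoebiusBound θ W ↔ H353.bdW H353.aM θ W := Iff.rfl

theorem box {A θ : ℝ} {W : ℝ → ℝ} (hA : 1 < A) (h1 : 1 / 2 < θ) (h2 : θ < 1) (hW : Cutoff A W)
    (hm : Monotone W) (hb : PrimeBound θ W ∨ MoebiusBound θ W) (ρ : ℂ) (hz : riemannZeta ρ = 0)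
    (hre : θ < ρ.re) : Real.pi < Real.log A * |ρ.im| := by
  refine H353.W_box A θ hA (by linarith) h2 hW hm ?_ ρ hz hre
  rcases hb with hb | hb
  · exact Or.inr ((bd_pr h1 hA hW).1 hb)
  · exact Or.inl hb

theorem free_of {θ₀ : ℝ} (h0 : 1 / 2 ≤ θ₀) (h1 : θ₀ < 1)
    (h : ∀ θ A : ℝ, θ₀ < θ → θ < 1 → 1 < A → ∃ W, Cutoff A W ∧ Monotone W ∧ (PrimeBound θ W ∨ MoebiusBound θ W)) :
    ZeroFree θ₀ := by
  intro s hs
  by_cases h2 : s.re < 1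
  · have h3 : θ₀ < (θ₀ + s.re) / 2 := by linarith
    refine H353.W_free ((θ₀ + s.re) / 2) (by linarith) (by linarith) (fun A hA => ?_) s (by linarith)
    obtain ⟨W, a, b, c⟩ := h ((θ₀ + s.re) / 2) A h3 (by linarith) hA
    refine ⟨W, a, b, ?_⟩
    rcases c with c | c
    · exact Or.inr ((bd_pr (by linarith) hA a).1 c)
    · exact Or.inl c
  · exact riemannZeta_ne_zero_of_one_le_re (not_lt.1 h2)

/-- **Smooth cutoffs with square-root error and zero-free half-planes.** -/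
theorem result :
    (∀ θ A : ℝ, 1 / 2 < θ → 1 < A → ∃ W, Cutoff A W ∧ PrimeBound θ W ∧ MoebiusBound θ W) ∧
    (∃ A : ℝ → ℝ, Tendsto A (𝓝[<] 1) (𝓝 1) ∧ ∀ θ : ℝ, 1 / 2 < θ → θ < 1 →
      1 < A θ ∧ ∃ W, Cutoff (A θ) W ∧ Monotone W ∧ PrimeBound θ W ∧ MoebiusBound θ W) ∧
    (∀ (A θ : ℝ) (W : ℝ → ℝ), 1 < A → 1 / 2 < θ → θ < 1 → Cutoff A W → Monotone W →
      (PrimeBound θ W ∨ MoebiusBound θ W) → ∀ ρ : ℂ, riemannZeta ρ = 0 → θ < ρ.re →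
        Real.pi < Real.log A * |ρ.im|) ∧
    (∀ θ₀ : ℝ, 1 / 2 ≤ θ₀ → θ₀ < 1 →
      ((∀ θ A : ℝ, θ₀ < θ → 1 < A → ∃ W, Cutoff A W ∧ Monotone W ∧ PrimeBound θ W) ↔ ZeroFree θ₀) ∧
      ((∀ θ A : ℝ, θ₀ < θ → 1 < A → ∃ W, Cutoff A W ∧ Monotone W ∧ MoebiusBound θ W) ↔ ZeroFree θ₀)) := by
  have mP : ∀ (s t : ℝ) (W : ℝ → ℝ), s ≤ t → PrimeBound s W → PrimeBound t W := by
    rintro s t W hst ⟨C, hC⟩
    refine ⟨C, fun x hx => (hC x hx).trans ?_⟩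
    have hC0 : 0 ≤ C := by simpa using (abs_nonneg _).trans (hC 1 le_rfl)
    exact mul_le_mul_of_nonneg_left (Real.rpow_le_rpow_of_exponent_le hx hst) hC0
  have mM : ∀ (s t : ℝ) (W : ℝ → ℝ), s ≤ t → MoebiusBound s W → MoebiusBound t W := by
    rintro s t W hst ⟨C, hC⟩
    refine ⟨C, fun x hx => (hC x hx).trans ?_⟩
    have hC0 : 0 ≤ C := by simpa using (abs_nonneg _).trans (hC 1 le_rfl)
    exact mul_le_mul_of_nonneg_left (Real.rpow_le_rpow_of_exponent_le hx hst) hC0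
  have lo : ∀ {θ₀ θ : ℝ}, 1 / 2 ≤ θ₀ → θ₀ < 1 → θ₀ < θ → ∃ s : ℝ, θ₀ < s ∧ s < 1 ∧ s ≤ θ := by
    intro θ₀ θ h0 h1 h2
    refine ⟨min θ ((θ₀ + 1) / 2), lt_min h2 (by linarith), (min_le_right _ _).trans_lt (by linarith),
      min_le_left _ _⟩
  refine ⟨fun θ A h1 hA => ?_, ⟨H353.AA, H353.AA_tendsto, fun θ h1 h2 => ?_⟩,
    fun A θ W hA h1 h2 hW hm hb ρ hz hre => box hA h1 h2 hW hm hb ρ hz hre, fun θ₀ h0 h1 => ?_⟩
  · obtain ⟨s, hs1, hs2, hs3⟩ := lo le_rfl (by norm_num) h1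
    obtain ⟨W, a, b, c⟩ := H353.W_signed A s hA hs1 hs2
    exact ⟨W, a, mP s θ W hs3 ((bd_pr hs1 hA a).2 c), mM s θ W hs3 b⟩
  · obtain ⟨W, a, b, c, d⟩ := H353.W_mono θ h1 h2
    have hA : 1 < H353.AA θ := by
      unfold H353.AA
      rw [Real.one_lt_exp_iff]
      have := H353.HT_nonneg (H353.sg θ)
      linarith
    exact ⟨hA, W, a, b, (bd_pr h1 hA a).2 d, c⟩
  · have key : ∀ (hz : ZeroFree θ₀) (θ A : ℝ), θ₀ < θ → 1 < A →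
        ∃ W, Cutoff A W ∧ Monotone W ∧ PrimeBound θ W ∧ MoebiusBound θ W := by
      intro hz θ A h2 hA
      obtain ⟨s, hs1, hs2, hs3⟩ := lo h0 h1 h2
      obtain ⟨W, a, b, c, d⟩ := H353.W_mono_of_free A ((θ₀ + s) / 2) s hA (by linarith) (by linarith) hs2
        (fun z hz1 _ => hz z (by linarith))
      exact ⟨W, a, b, mP s θ W hs3 ((bd_pr (by linarith) hA a).2 d), mM s θ W hs3 c⟩
    refine ⟨⟨fun h => free_of h0 h1 fun θ A h2 _ hA => ?_, fun h θ A h2 hA => ?_⟩,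
      ⟨fun h => free_of h0 h1 fun θ A h2 _ hA => ?_, fun h θ A h2 hA => ?_⟩⟩
    · obtain ⟨W, a, b, c⟩ := h θ A h2 hA
      exact ⟨W, a, b, Or.inl c⟩
    · obtain ⟨W, a, b, c, _⟩ := key h θ A h2 hA
      exact ⟨W, a, b, c⟩
    · obtain ⟨W, a, b, c⟩ := h θ A h2 hA
      exact ⟨W, a, b, Or.inr c⟩
    · obtain ⟨W, a, b, _, c⟩ := key h θ A h2 hA
      exact ⟨W, a, b, c⟩

end Pool.Agent.Results.MP_5a4862_nt.SmoothCutoffs
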