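import Pool.Agent.V11272.RB.Main

set_option autoImplicit false

/-!
# Large values of `n / φ(n)` and the zero-free half-planes of zeta

Let `F(x)` be the number of integers `3 ≤ n ≤ x` with `n / φ(n) ≥ e^γ log log n`, and let `Θ ∈ [1/2, 1]` be the
supremum of the real parts of the nontrivial zeros of zeta.  By Mertens' theorem the constant `e^γ` is the limit
superior of `n / (φ(n) log log n)`, and Nicolas showed that `F(x)` tends to infinity.

We show, unconditionally, that `F(x) = exp ((log x) ^ ((1 + Θ) / 2 + o(1)))` as `x → ∞` through all real numbers.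
In particular zeta has a zero-free half-plane `Re s ≥ σ₀` with `σ₀ < 1` if and only if
`F(x) ≤ exp ((log x) ^ c)` for some `c < 1` and arbitrarily large `x`.

Structure of the proof.

* The deviation `D(y)` in Mertens' theorem `∏_{p ≤ y} (1 - 1/p)⁻¹ = e^γ log y · exp (D(y) + (θ(y) - y) / (y log y))`
  is `K(y) + O(y ^ (-1/2))`, with lower error term only `O(1 / y)`, where
  `K(y) = - ∫_y^∞ (ψ(t) - t) (1 + log t) / (t log t)^2 dt`.
* Localized oscillation: for every `b > 1 - Θ` and `ε > 0`, every interval `[Y ^ (1 - ε), Y]` with `Y` large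
  contains a `y` with `K(y) > y ^ (-b)`.
* Lower bound: if `K(y) > y ^ (-b)` then one may remove from the product of the primes up to `y` any
  `y ^ ((1 + Θ) / 2 - δ)` primes of a short interval `(y - z, y]`.
* Upper bound: if `n / φ(n) ≥ e^γ log log n` and `y = log n`, then at most `y ^ ((1 + Θ) / 2 + δ)` primes
  up to `y` do not divide `n`, and `n` is determined by them and by a small cofactor.
-/

namespace Pool.Agent.Results.MP_5a4862_nt.TotientExceptions

open Filter Topology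

/-- `F x` is the number of integers `3 ≤ n ≤ x` with `n / φ(n) ≥ e^γ log log n` -/
noncomputable def F (x : ℝ) : ℕ :=
  {n : ℕ | 3 ≤ n ∧ (n : ℝ) ≤ x ∧
    Real.exp Real.eulerMascheroniConstant * Real.log (Real.log n) ≤ (n : ℝ) / Nat.totient n}.ncard

/-- `Θ` is the supremum of the real parts of the zeros `s` of zeta with `Re s > 0` -/
noncomputable def Θ : ℝ := sSup {σ : ℝ | ∃ s : ℂ, riemannZeta s = 0 ∧ 0 < s.re ∧ s.re = σ}

theorem F_eq {x : ℝ} (hx : 0 ≤ x) : (F x : ℝ) = Pool.Agent.V11272.RB.FC x := by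
  classical
  unfold F Pool.Agent.V11272.RB.FC
  have h : {n : ℕ | 3 ≤ n ∧ (n : ℝ) ≤ x ∧
      Real.exp Real.eulerMascheroniConstant * Real.log (Real.log n) ≤ (n : ℝ) / Nat.totient n} =
      (((Finset.Icc 3 ⌊x⌋₊).filter Pool.Agent.V11272.RB.Exc : Finset ℕ) : Set ℕ) := by
    ext n
    simp only [Set.mem_ofPred_eq, Finset.coe_filter, Finset.mem_Icc, Pool.Agent.V11272.RB.Exc]
    constructor
    · rintro ⟨h1, h2, h3⟩
      exact ⟨⟨h1, (Nat.le_floor_iff hx).2 h2⟩, h1, h3⟩
    · rintro ⟨⟨h1, h2⟩, _, h3⟩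
      exact ⟨h1, (Nat.le_floor_iff hx).1 h2, h3⟩
  rw [h, Set.ncard_coe_finset]

/-- **Large values of `n / φ(n)`.**  Unconditionally `F(x) = exp ((log x) ^ ((1 + Θ) / 2 + o(1)))` as `x → ∞`.
Zeta has no zero in some half-plane `Re s ≥ σ₀` with `1 / 2 < σ₀ < 1` if and only if
`F(x) ≤ exp ((log x) ^ c)` for some `c < 1` and all large `x`, if and only if this holds for some `c < 1` and
arbitrarily large `x`. -/
theorem result :
    Tendsto (fun x : ℝ => Real.log (Real.log (F x)) / Real.log (Real.log x)) atTop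
        (𝓝 ((1 + Θ) / 2)) ∧
    [∃ σ₀ : ℝ, 1 / 2 < σ₀ ∧ σ₀ < 1 ∧ ∀ s : ℂ, σ₀ ≤ s.re → riemannZeta s ≠ 0,
      ∃ c : ℝ, c < 1 ∧ ∀ᶠ x : ℝ in atTop, (F x : ℝ) ≤ Real.exp ((Real.log x) ^ c),
      ∃ c : ℝ, c < 1 ∧ ∃ᶠ x : ℝ in atTop, (F x : ℝ) ≤ Real.exp ((Real.log x) ^ c)].TFAE := by
  have hΘ : Θ = Pool.Agent.V11272.RB.Th := rfl
  have hF : ∀ᶠ x : ℝ in atTop, (F x : ℝ) = Pool.Agent.V11272.RB.FC x := by
    filter_upwards [eventually_ge_atTop (0 : ℝ)] with x hx
    exact F_eq hx
  refine ⟨?_, ?_⟩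
  · rw [hΘ]
    refine Pool.Agent.V11272.RB.FC_limit.congr' ?_
    filter_upwards [hF] with x hx
    rw [hx]
  · tfae_have 1 → 2 := by
      rintro ⟨σ₀, h1, h2, h3⟩
      have h4 : Pool.Agent.V11272.RB.Th ≤ σ₀ :=
        (Pool.Agent.V11272.RB.Th_le_iff (by linarith)).2 fun s hs => h3 s hs.le
      refine ⟨(1 + Pool.Agent.V11272.RB.Th) / 2 + (1 - Pool.Agent.V11272.RB.Th) / 4, by linarith, ?_⟩
      have h5 := Pool.Agent.V11272.RB.upper_FC
        (ε := (1 - Pool.Agent.V11272.RB.Th) / 4) (by linarith)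
      filter_upwards [h5, hF] with x hx1 hx2
      rw [hx2]
      exact hx1
    tfae_have 2 → 3 := fun ⟨c, h1, h2⟩ => ⟨c, h1, h2.frequently⟩
    tfae_have 3 → 1 := by
      rintro ⟨c, hc, h⟩
      have h1 : Pool.Agent.V11272.RB.Th < 1 := by
        by_contra hcon
        have h2 : Pool.Agent.V11272.RB.Th = 1 :=
          le_antisymm Pool.Agent.V11272.RB.Th_le (not_lt.1 hcon)
        have h3 := Pool.Agent.V11272.RB.lower_FC (ε := (1 - c) / 2) Pool.Agent.V11272.RB.Th_ge
          Pool.Agent.V11272.RB.Th_le (by linarith) Pool.Agent.V11272.RB.Th_free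
          Pool.Agent.V11272.RB.Th_zero
        rw [h2] at h3
        obtain ⟨x, hx1, hx2, hx3, hx4⟩ := (h.and_eventually
          (h3.and (hF.and (Real.tendsto_log_atTop.eventually_gt_atTop 1)))).exists
        rw [hx3] at hx1
        have h4 := Real.exp_le_exp.1 (hx2.trans hx1)
        have h5 := (Real.rpow_le_rpow_left_iff hx4).1 h4
        linarith
      have h0 := Pool.Agent.V11272.RB.Th_ge
      refine ⟨(1 + Pool.Agent.V11272.RB.Th) / 2, by linarith, by linarith, fun s hs => ?_⟩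
      exact Pool.Agent.V11272.RB.Th_free s (by linarith)
    tfae_finish

end Pool.Agent.Results.MP_5a4862_nt.TotientExceptions
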